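import Pool.Agent.V5helper51.EG.Stm
import Pool.Agent.N748.MG.Res
import Pool.Agent.N748.MG.TMC

set_option autoImplicit false

/-! # (TRM) the truncated moments -/

namespace Pool.Agent.V5helper81.EG

open Finset Filter MeasureTheory Topology Complex
open Pool.Agent.N748.MG Pool.Agent.N748.MJ
open Pool.Agent.V5helper51.PL Pool.Agent.V5helper51.EG

/-- `nu` is nonnegative -/
theorem nu_nonneg {V δ c : ℝ} (hV : 0 < V) (hδ : 0 < δ) (hc : 0 < c) : 0 ≤ nu V δ c := by
  unfold nu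
  have h1 : 0 < (aC V).re := by
    rw [aC_re]
    exact (aC_akR V).1
  positivity

/-- `nu` at a lower level -/
theorem nu_scale {V δ c s : ℝ} (hc : 0 < c) (hs : 0 < s) :
    nu V δ (c * s) = s ^ (-(2 * V)) * nu V δ c := by
  unfold nu
  rw [Real.mul_rpow hc.le hs.le]
  ring

/-- the layers -/
theorem layer {z c k : ℝ} (hz : 0 ≤ z) (hzc : z ≤ c) (hc : 0 < c) (hk : 0 < k) :
    ENNReal.ofReal (z ^ (2 * k)) ≤ ∑' j : ℕ, ENNReal.ofReal ((c * (1 / 2) ^ j) ^ (2 * k)) *
      (if c * (1 / 2) ^ (j + 1) < z then 1 else 0) := by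
  rcases hz.eq_or_lt with h0 | h0
  · rw [← h0, Real.zero_rpow (by positivity), ENNReal.ofReal_zero]
    exact bot_le
  · -- the first `j` with `c 2^(-j-1) < z`
    have hex : ∃ j : ℕ, c * (1 / 2) ^ (j + 1) < z := by
      obtain ⟨n, hn⟩ := exists_pow_lt_of_lt_one (show 0 < z / c by positivity)
        (show (1 / 2 : ℝ) < 1 by norm_num)
      refine ⟨n, ?_⟩
      have h1 : (1 / 2 : ℝ) ^ (n + 1) ≤ (1 / 2) ^ n :=
        pow_le_pow_of_le_one (by norm_num) (by norm_num) (Nat.le_succ n)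
      have h2 : c * (1 / 2) ^ (n + 1) ≤ c * (1 / 2) ^ n := mul_le_mul_of_nonneg_left h1 hc.le
      have h3 : c * (1 / 2) ^ n < z := by
        rw [lt_div_iff₀ hc] at hn
        linarith
      linarith
    classical
    have hj := Nat.find_spec hex
    set j := Nat.find hex with hjd
    have hz2 : z ≤ c * (1 / 2) ^ j := by
      rcases Nat.eq_zero_or_pos j with h | h
      · rw [h, pow_zero, mul_one]; exact hzc
      · have h1 := Nat.find_min hex (m := j - 1) (by omega)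
        rw [not_lt] at h1
        rw [Nat.sub_add_cancel h] at h1
        exact h1
    calc ENNReal.ofReal (z ^ (2 * k)) ≤ ENNReal.ofReal ((c * (1 / 2) ^ j) ^ (2 * k)) *
          (if c * (1 / 2) ^ (j + 1) < z then 1 else 0) := by
          rw [if_pos hj, mul_one]
          exact ENNReal.ofReal_le_ofReal (Real.rpow_le_rpow hz hz2 (by positivity))
      _ ≤ _ := ENNReal.le_tsum j

theorem t_TRM (hTB : S_TB) : S_TRM := by
  intro V k D hV hk hD
  obtain ⟨C0, hC0, lam, δ0, hlam, hδ0, hδ1, hev⟩ := hTB V D hV hD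
  have hkp : 0 < k := hV.trans hk
  -- the ratios
  set q : ℝ := (1 / 2 : ℝ) ^ (2 * k) with hq
  set r : ℝ := (1 / 2 : ℝ) ^ (2 * k - 2 * V) with hr
  have hq0 : 0 < q := by positivity
  have hq1 : q < 1 := Real.rpow_lt_one (by norm_num) (by norm_num) (by positivity)
  have hr0 : 0 < r := by positivity
  have hr1 : r < 1 := Real.rpow_lt_one (by norm_num) (by norm_num) (by linarith)
  set C : ℝ := (1 - q)⁻¹ + C0 * (1 / 2 : ℝ) ^ (-(2 * V)) * (1 - r)⁻¹ with hC
  have h1q : 0 < (1 - q)⁻¹ := inv_pos.2 (by linarith)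
  have h1r : 0 < (1 - r)⁻¹ := inv_pos.2 (by linarith)
  have h2V : (0 : ℝ) < (1 / 2 : ℝ) ^ (-(2 * V)) := by positivity
  refine ⟨C, by positivity, lam, δ0, hlam, hδ0, hδ1, ?_⟩
  filter_upwards [hev, eventually_ge_atTop 0] with X hX hX0 δ hδ hδd hadm c hc
  have hTBc := hX δ hδ hδd hadm
  have hnu := nu_nonneg hV hδ hc
  have hm : Measurable (mz δ) := TMC.mz_meas (by linarith)
  set S : Set ℝ := {t : ℝ | 0 ≤ t ∧ t ≤ X ∧ mz δ t ≤ c} with hS
  have hδD : 0 < δ ^ D := Real.rpow_pos_of_pos hδ D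
  -- the terms
  have hterm : ∀ j : ℕ, (c * (1 / 2) ^ j) ^ (2 * k) *
      (X * (δ ^ D + C0 * nu V δ (c * (1 / 2) ^ (j + 1)))) =
      (X * c ^ (2 * k) * δ ^ D) * q ^ j +
        (X * c ^ (2 * k) * (C0 * (1 / 2 : ℝ) ^ (-(2 * V)) * nu V δ c)) * r ^ j := by
    intro j
    have e1 : (c * (1 / 2) ^ j) ^ (2 * k) = c ^ (2 * k) * q ^ j := by
      rw [Real.mul_rpow hc.le (by positivity), hq, ← Real.rpow_natCast, ← Real.rpow_natCast,
        ← Real.rpow_mul (by norm_num), ← Real.rpow_mul (by norm_num), mul_comm (j : ℝ)]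
    have e2 : ((1 / 2 : ℝ) ^ (j + 1)) ^ (-(2 * V)) =
        (1 / 2 : ℝ) ^ (-(2 * V)) * ((1 / 2 : ℝ) ^ (-(2 * V))) ^ j := by
      rw [← Real.rpow_natCast, ← Real.rpow_natCast, ← Real.rpow_mul (by norm_num),
        ← Real.rpow_mul (by norm_num), ← Real.rpow_add (by norm_num)]
      congr 1
      push_cast
      ring
    have e3 : q * (1 / 2 : ℝ) ^ (-(2 * V)) = r := by
      rw [hq, hr, ← Real.rpow_add (by norm_num)]
      congr 1
    rw [e1, nu_scale hc (by positivity), e2, ← e3, mul_pow]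
    ring
  have hsum1 : HasSum (fun j : ℕ => (X * c ^ (2 * k) * δ ^ D) * q ^ j)
      ((X * c ^ (2 * k) * δ ^ D) * (1 - q)⁻¹) := (hasSum_geometric_of_lt_one hq0.le hq1).mul_left _
  have hsum2 : HasSum (fun j : ℕ =>
      (X * c ^ (2 * k) * (C0 * (1 / 2 : ℝ) ^ (-(2 * V)) * nu V δ c)) * r ^ j)
      ((X * c ^ (2 * k) * (C0 * (1 / 2 : ℝ) ^ (-(2 * V)) * nu V δ c)) * (1 - r)⁻¹) :=
    (hasSum_geometric_of_lt_one hr0.le hr1).mul_left _
  have hsum := hsum1.add hsum2
  have hsum' : HasSum (fun j : ℕ => (c * (1 / 2) ^ j) ^ (2 * k) *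
      (X * (δ ^ D + C0 * nu V δ (c * (1 / 2) ^ (j + 1)))))
      ((X * c ^ (2 * k) * δ ^ D) * (1 - q)⁻¹ +
        (X * c ^ (2 * k) * (C0 * (1 / 2 : ℝ) ^ (-(2 * V)) * nu V δ c)) * (1 - r)⁻¹) := by
    refine hsum.congr_fun ?_ |> fun h => h
    intro j
    exact hterm j
  have hnn : ∀ j : ℕ, 0 ≤ (c * (1 / 2) ^ j) ^ (2 * k) *
      (X * (δ ^ D + C0 * nu V δ (c * (1 / 2) ^ (j + 1)))) := by
    intro j
    have := nu_nonneg (V := V) (δ := δ) (c := c * (1 / 2) ^ (j + 1)) hV hδ (by positivity)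
    positivity
  -- the integral
  have hlin : ∫⁻ t in S, ENNReal.ofReal (mz δ t ^ (2 * k)) ≤
      ∑' j : ℕ, ENNReal.ofReal ((c * (1 / 2) ^ j) ^ (2 * k) *
        (X * (δ ^ D + C0 * nu V δ (c * (1 / 2) ^ (j + 1))))) := by
    have hSm : MeasurableSet S := by
      have h1 : S = Set.Icc 0 X ∩ mz δ ⁻¹' Set.Iic c := by
        ext t
        simp [hS, and_assoc]
      rw [h1]
      exact measurableSet_Icc.inter (hm measurableSet_Iic)
    calc ∫⁻ t in S, ENNReal.ofReal (mz δ t ^ (2 * k))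
        ≤ ∫⁻ t in S, ∑' j : ℕ, ENNReal.ofReal ((c * (1 / 2) ^ j) ^ (2 * k)) *
            (if c * (1 / 2) ^ (j + 1) < mz δ t then 1 else 0) := by
          refine setLIntegral_mono' hSm fun t ht => ?_
          exact layer (norm_nonneg _) ht.2.2 hc hkp
      _ = ∑' j : ℕ, ∫⁻ t in S, ENNReal.ofReal ((c * (1 / 2) ^ j) ^ (2 * k)) *
            (if c * (1 / 2) ^ (j + 1) < mz δ t then 1 else 0) := by
          refine lintegral_tsum fun j => Measurable.aemeasurable ?_
          exact (Measurable.ite (measurableSet_lt measurable_const hm) measurable_const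
            measurable_const).const_mul _
      _ ≤ _ := by
          refine ENNReal.tsum_le_tsum fun j => ?_
          have hme : Measurable fun t : ℝ => (if c * (1 / 2) ^ (j + 1) < mz δ t then (1 : ENNReal) else 0) :=
            Measurable.ite (measurableSet_lt measurable_const hm) measurable_const measurable_const
          rw [lintegral_const_mul _ hme, ENNReal.ofReal_mul (by positivity)]
          refine mul_le_mul_right ?_ _
          have e : (fun t : ℝ => (if c * (1 / 2) ^ (j + 1) < mz δ t then (1 : ENNReal) else 0)) =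
              Set.indicator {t : ℝ | c * (1 / 2) ^ (j + 1) < mz δ t} 1 := by
            funext t
            simp [Set.indicator_apply]
          rw [e, lintegral_indicator_one (measurableSet_lt measurable_const hm),
            Measure.restrict_apply (measurableSet_lt measurable_const hm)]
          refine (measure_mono ?_).trans (hTBc (c * (1 / 2) ^ (j + 1)) (by positivity))
          rintro t ⟨h1, h2⟩
          exact ⟨h2.1, h2.2.1, h1⟩
  have hfin : ∑' j : ℕ, ENNReal.ofReal ((c * (1 / 2) ^ j) ^ (2 * k) *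
        (X * (δ ^ D + C0 * nu V δ (c * (1 / 2) ^ (j + 1))))) =
      ENNReal.ofReal ((X * c ^ (2 * k) * δ ^ D) * (1 - q)⁻¹ +
        (X * c ^ (2 * k) * (C0 * (1 / 2 : ℝ) ^ (-(2 * V)) * nu V δ c)) * (1 - r)⁻¹) := by
    rw [← ENNReal.ofReal_tsum_of_nonneg hnn hsum'.summable, hsum'.tsum_eq]
  rw [hfin] at hlin
  have hint : ∫ t in S, mz δ t ^ (2 * k) ≤ (X * c ^ (2 * k) * δ ^ D) * (1 - q)⁻¹ +
        (X * c ^ (2 * k) * (C0 * (1 / 2 : ℝ) ^ (-(2 * V)) * nu V δ c)) * (1 - r)⁻¹ := by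
    have h1 : ∫ t in S, mz δ t ^ (2 * k) = (∫⁻ t in S, ENNReal.ofReal (mz δ t ^ (2 * k))).toReal := by
      refine integral_eq_lintegral_of_nonneg_ae (Eventually.of_forall fun t => ?_)
        (hm.pow_const (2 * k)).aestronglyMeasurable
      exact Real.rpow_nonneg (norm_nonneg _) _
    rw [h1]
    refine ENNReal.toReal_le_of_le_ofReal ?_ hlin
    positivity
  refine hint.trans ?_
  have hA : 0 ≤ X * c ^ (2 * k) * δ ^ D := by positivity
  have hB : 0 ≤ X * c ^ (2 * k) * nu V δ c := by positivity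
  have e : X * (c ^ (2 * k) * (C * δ ^ D + C * nu V δ c)) =
      (X * c ^ (2 * k) * δ ^ D) * C + (X * c ^ (2 * k) * nu V δ c) * C := by ring
  rw [e]
  refine add_le_add (mul_le_mul_of_nonneg_left ?_ hA) ?_
  · rw [hC]
    have : 0 ≤ C0 * (1 / 2 : ℝ) ^ (-(2 * V)) * (1 - r)⁻¹ := by positivity
    linarith
  · have e2 : (X * c ^ (2 * k) * (C0 * (1 / 2 : ℝ) ^ (-(2 * V)) * nu V δ c)) * (1 - r)⁻¹ =
        (X * c ^ (2 * k) * nu V δ c) * (C0 * (1 / 2 : ℝ) ^ (-(2 * V)) * (1 - r)⁻¹) := by ring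
    rw [e2]
    refine mul_le_mul_of_nonneg_left ?_ hB
    rw [hC]
    linarith

end Pool.Agent.V5helper81.EG
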